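import Mathlib

/-!
Functions that are constant on the members of a countable partition into closed sets.
-/

namespace Pool.Agent.MP_03d3f2_lc

variable {X : Type} [TopologicalSpace X]

/-- `f` is constant on the members of a countable partition of `X` into closed sets. -/
def Dec {β : Type} (f : X → β) : Prop :=
  ∃ t : X → ℕ, (∀ n, IsClosed {x | t x = n}) ∧ ∀ x y, t x = t y → f x = f y

theorem Dec.const {β : Type} (b : β) : Dec (fun _ : X => b) :=
  ⟨fun _ => 0, fun n => by by_cases h : 0 = n <;> simp [h], fun _ _ _ => rfl⟩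

theorem Dec.of_determined {β γ : Type} {f : X → β} {g : X → γ} (hf : Dec f)
    (h : ∀ x y, f x = f y → g x = g y) : Dec g := by
  obtain ⟨t, ht, htf⟩ := hf
  exact ⟨t, ht, fun x y hxy => h x y (htf x y hxy)⟩

theorem Dec.comp {β : Type} {f : X → β} (hf : Dec f) {φ : X → X} (hφ : Continuous φ) :
    Dec (fun x => f (φ x)) := by
  obtain ⟨t, ht, htf⟩ := hf
  exact ⟨fun x => t (φ x), fun n => (ht n).preimage hφ, fun x y h => htf _ _ h⟩

theorem Dec.dep {β : Type} {n : X → ℕ} (hn : Dec n) {f : ℕ → X → β} (hf : ∀ k, Dec (f k)) :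
    Dec (fun x => (n x, f (n x) x)) := by
  obtain ⟨t, ht, htn⟩ := hn
  choose s hs hsf using hf
  refine ⟨fun x => Nat.pair (t x) (s (n x) x), fun N => ?_, fun x y h => ?_⟩
  · by_cases hex : ∃ x0, t x0 = N.unpair.1
    · obtain ⟨x0, hx0⟩ := hex
      have : {x | Nat.pair (t x) (s (n x) x) = N} =
          {x | t x = N.unpair.1} ∩ {x | s (n x0) x = N.unpair.2} := by
        ext x
        simp only [Set.mem_ofPred_eq, Set.mem_inter_iff]
        constructor
        · rintro rfl
          rw [Nat.unpair_pair] at hx0 ⊢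
          exact ⟨rfl, by rw [htn _ _ hx0]⟩
        · rintro ⟨h1, h2⟩
          rw [htn x x0 (h1.trans hx0.symm), h1, h2, Nat.pair_unpair]
      rw [this]
      exact (ht _).inter (hs _ _)
    · have : {x | Nat.pair (t x) (s (n x) x) = N} = ∅ := by
        ext x
        simp only [Set.mem_ofPred_eq, Set.mem_empty_iff_false, iff_false]
        rintro rfl
        exact hex ⟨x, by rw [Nat.unpair_pair]⟩
      rw [this]
      exact isClosed_empty
  · obtain ⟨h1, h2⟩ := Nat.pair_eq_pair.1 h
    have h3 := htn x y h1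
    rw [Prod.mk.injEq]
    refine ⟨h3, ?_⟩
    rw [h3] at h2 ⊢
    exact hsf _ x y h2

theorem Dec.pair {β γ : Type} {f : X → β} {g : X → γ} (hf : Dec f) (hg : Dec g) :
    Dec (fun x => (f x, g x)) := by
  obtain ⟨t, ht, htf⟩ := hf
  refine (Dec.dep (n := t) ⟨t, ht, fun _ _ h => h⟩ (f := fun _ => g) fun _ => hg).of_determined ?_
  intro x y h
  rw [Prod.mk.injEq] at h ⊢
  exact ⟨htf x y h.1, h.2⟩

theorem Dec.and {p q : X → Prop} (hp : Dec p) (hq : Dec q) : Dec (fun x => p x ∧ q x) :=
  (hp.pair hq).of_determined fun x y h => by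
    rw [Prod.mk.injEq] at h
    rw [h.1, h.2]

theorem Dec.imp {p q : X → Prop} (hp : Dec p) (hq : Dec q) : Dec (fun x => p x → q x) :=
  (hp.pair hq).of_determined fun x y h => by
    rw [Prod.mk.injEq] at h
    rw [h.1, h.2]

theorem Dec.not {p : X → Prop} (hp : Dec p) : Dec (fun x => ¬ p x) :=
  hp.of_determined fun x y h => by rw [h]

theorem Dec.finset {ι β : Type} (s : Finset ι) {f : ι → X → β} (hf : ∀ i, Dec (f i)) :
    ∃ t : X → ℕ, (∀ n, IsClosed {x | t x = n}) ∧
      ∀ x y, t x = t y → ∀ i ∈ s, f i x = f i y := by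
  classical
  induction s using Finset.induction_on with
  | empty =>
    exact ⟨fun _ => 0, fun n => by by_cases h : 0 = n <;> simp [h], fun _ _ _ i hi => by simp at hi⟩
  | insert j s hj ih =>
    obtain ⟨t, ht, htf⟩ := ih
    obtain ⟨t', ht', htf'⟩ := Dec.pair (f := t) ⟨t, ht, fun _ _ h => h⟩ (hf j)
    refine ⟨t', ht', fun x y h i hi => ?_⟩
    have h1 := htf' x y h
    rw [Prod.mk.injEq] at h1
    rcases Finset.mem_insert.1 hi with rfl | hi
    · exact h1.2
    · exact htf x y h1.1 i hi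

theorem Dec.forall_finset {ι : Type} (s : Finset ι) {p : ι → X → Prop} (hp : ∀ i, Dec (p i)) :
    Dec (fun x => ∀ i ∈ s, p i x) := by
  obtain ⟨t, ht, htf⟩ := Dec.finset s hp
  refine ⟨t, ht, fun x y h => propext (forall₂_congr fun i hi => ?_)⟩
  rw [htf x y h i hi]

theorem Dec.exists_finset {ι : Type} (s : Finset ι) {p : ι → X → Prop} (hp : ∀ i, Dec (p i)) :
    Dec (fun x => ∃ i ∈ s, p i x) := by
  obtain ⟨t, ht, htf⟩ := Dec.finset s hp
  refine ⟨t, ht, fun x y h => propext (exists_congr fun i => and_congr_right fun hi => ?_)⟩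
  rw [htf x y h i hi]

open Classical in
theorem Dec.first (O : ℕ → Set X) (hO : ∀ m, IsClopen (O m)) :
    Dec (fun x => if h : ∃ m, x ∈ O m then Nat.find h + 1 else 0) := by
  refine ⟨_, fun n => ?_, fun _ _ h => h⟩
  cases n with
  | zero =>
    have : {x | (if h : ∃ m, x ∈ O m then Nat.find h + 1 else 0) = 0} = ⋂ m, (O m)ᶜ := by
      ext x
      by_cases h : ∃ m, x ∈ O m
      · simp only [Set.mem_ofPred_eq, dif_pos h, Set.mem_iInter, Set.mem_compl_iff]
        obtain ⟨m, hm⟩ := h
        exact ⟨fun h => absurd h (Nat.succ_ne_zero _), fun h => absurd hm (h m)⟩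
      · simp only [Set.mem_ofPred_eq, dif_neg h, Set.mem_iInter, Set.mem_compl_iff, true_iff]
        exact fun m hm => h ⟨m, hm⟩
    rw [this]
    exact isClosed_iInter fun m => (hO m).compl.isClosed
  | succ n =>
    have : {x | (if h : ∃ m, x ∈ O m then Nat.find h + 1 else 0) = n + 1} =
        O n ∩ ⋂ m, ⋂ _ : m < n, (O m)ᶜ := by
      ext x
      by_cases h : ∃ m, x ∈ O m
      · simp only [Set.mem_ofPred_eq, dif_pos h, Set.mem_inter_iff, Set.mem_iInter,
          Set.mem_compl_iff, Nat.add_right_cancel_iff, Nat.find_eq_iff]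
      · simp only [Set.mem_ofPred_eq, dif_neg h, Set.mem_inter_iff]
        exact ⟨fun h => absurd h.symm (Nat.succ_ne_zero _), fun h' => absurd ⟨n, h'.1⟩ h⟩
    rw [this]
    exact (hO n).isClosed.inter
      (isClosed_iInter fun m => isClosed_iInter fun _ => (hO m).compl.isClosed)

theorem Dec.exists_clopen (O : ℕ → Set X) (hO : ∀ m, IsClopen (O m)) :
    Dec (fun x => ∃ m, x ∈ O m) := by
  refine (Dec.first O hO).of_determined fun x y h => propext ?_
  by_cases hx : ∃ m, x ∈ O m <;> by_cases hy : ∃ m, y ∈ O m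
  · exact iff_of_true hx hy
  · rw [dif_pos hx, dif_neg hy] at h; exact absurd h (Nat.succ_ne_zero _)
  · rw [dif_neg hx, dif_pos hy] at h; exact absurd h.symm (Nat.succ_ne_zero _)
  · exact iff_of_false hx hy

theorem Dec.forall_clopen (p : ℕ → X → Prop) (hp : ∀ m, IsClopen {x | p m x}) :
    Dec (fun x => ∀ m, p m x) :=
  (Dec.exists_clopen (fun m => {x | p m x}ᶜ) fun m => (hp m).compl).of_determined
    fun x y h => by
      have h1 : ∀ z, (∀ m, p m z) ↔ ¬ ∃ m, z ∈ {x | p m x}ᶜ := fun z => by simp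
      rw [propext (h1 x), propext (h1 y), h]

theorem Dec.clopen {p : X → Prop} (hp : IsClopen {x | p x}) : Dec p :=
  (Dec.forall_clopen (fun _ => p) fun _ => hp).of_determined fun x y h => by
    simpa using h

theorem Dec.forall_of_bound {n : X → ℕ} (hn : Dec n) {p : ℕ → X → Prop} (hp : ∀ m, Dec (p m))
    (hb : ∀ x m, n x ≤ m → p m x) : Dec (fun x => ∀ m, p m x) := by
  refine (hn.dep (f := fun k x => ∀ m ∈ Finset.range k, p m x)
    fun k => Dec.forall_finset _ hp).of_determined fun x y h => ?_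
  have h1 : ∀ z, (∀ m, p m z) ↔ ∀ m ∈ Finset.range (n z), p m z := fun z =>
    ⟨fun h m _ => h m, fun h m => by
      by_cases hm : m < n z
      · exact h m (Finset.mem_range.2 hm)
      · exact hb z m (not_lt.1 hm)⟩
  rw [Prod.mk.injEq] at h
  rw [propext (h1 x), propext (h1 y), h.2]

end Pool.Agent.MP_03d3f2_lc
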