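import Mathlib

/-!
Schreier graphs of `ℤ^d`-actions and `q`-toasts.
-/

namespace Pool.Agent.MP_03d3f2_lc

/-- The Schreier graph of a `ℤ^d`-action with respect to `S = {γ : ‖γ‖_∞ = 1}`. -/
def schreier (d : ℕ) (X : Type) [AddAction (Fin d → ℤ) X] : SimpleGraph X :=
  SimpleGraph.fromRel fun x y => ∃ γ : Fin d → ℤ, ‖γ‖ = 1 ∧ y = γ +ᵥ x

/-- The extended graph distance between two sets of vertices (`⊤` if one of them is empty). -/
noncomputable def setDist {X : Type} (G : SimpleGraph X) (A B : Set X) : ℕ∞ :=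
  ⨅ a ∈ A, ⨅ b ∈ B, G.edist a b

/-- The interior boundary `R ∩ B(X ∖ R, 1)`. -/
def interiorBoundary {X : Type} (G : SimpleGraph X) (R : Set X) : Set X :=
  R ∩ {x | setDist G {x} Rᶜ ≤ 1}

/-- The graph `G^{≤ q}`. -/
def powerGraph {X : Type} (G : SimpleGraph X) (q : ℕ) : SimpleGraph X :=
  SimpleGraph.fromRel fun x y => G.edist x y ≤ q

/-- `T` is a `q`-toast for `G`. -/
def IsToast {X : Type} (G : SimpleGraph X) (q : ℕ) (T : ℕ → Set X) : Prop :=
  (⋃ n, T n) = Set.univ ∧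
  (∀ n, ∃ D : ℕ, ∀ x y : T n,
    ((powerGraph G q).induce (T n)).Reachable x y → G.edist x y ≤ D) ∧
  (∀ n m, n < m → (q : ℕ∞) ≤ setDist G (T n) (interiorBoundary G (T m)))

end Pool.Agent.MP_03d3f2_lc
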