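import Pool.Agent.MP_03d3f2_lc.Pieces

/-!
Re-layering the pieces so that every layer is closed.
-/

namespace Pool.Agent.MP_03d3f2_lc

variable {d : ℕ} {X : Type} [AddAction (Fin d → ℤ) X] [TopologicalSpace X] {q : ℕ}

namespace Rainbow

variable (R : Rainbow d X q)

open Classical in
/-- The translations that keep `x` in its level `k` class. -/
noncomputable def shape (k : ℕ) (x : X) : Finset (Fin d → ℤ) :=
  (box d (R.β k)).filter fun g =>
    g ∈ box d (R.β k) ∧ ∀ m, k ≤ m → ∀ u < R.L, (x ∈ R.V m u ↔ g +ᵥ x ∈ R.V m u)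

/-- The largest code seen in the level `k` class of `x`. -/
noncomputable def top (t : ℕ → X → ℕ) (k : ℕ) (x : X) : ℕ :=
  (Finset.range (k + 1) ×ˢ R.shape k x).sup fun p => t p.1 (p.2 +ᵥ x)

/-- The new layers. -/
def layer (t : ℕ → X → ℕ) (l : ℕ) : Set X :=
  {x | ∃ k, R.inP k x ∧ k + R.top t k x = l}

variable {R}

theorem mem_shape {k : ℕ} {x : X} {g : Fin d → ℤ} :
    g ∈ R.shape k x ↔ g ∈ box d (R.β k) ∧
      ∀ m, k ≤ m → ∀ u < R.L, (x ∈ R.V m u ↔ g +ᵥ x ∈ R.V m u) := by
  simp only [shape, Finset.mem_filter]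
  tauto

theorem top_le (t : ℕ → X → ℕ) {k k' : ℕ} {x x' : X} (hk : k ≤ k') (h : R.E k' x' x) :
    R.top t k x ≤ R.top t k' x' := by
  refine Finset.sup_le ?_
  rintro ⟨j, g⟩ hp
  rw [Finset.mem_product, Finset.mem_range, mem_shape] at hp
  have h1 : R.E k x (g +ᵥ x) := ⟨⟨g, hp.2.1, rfl⟩, hp.2.2⟩
  obtain ⟨⟨g', hg', he⟩, h2⟩ := h.trans (h1.mono hk)
  have h3 : (j, g') ∈ Finset.range (k' + 1) ×ˢ R.shape k' x' := by
    rw [Finset.mem_product, Finset.mem_range, mem_shape]
    exact ⟨by have := hp.1; omega, hg', by rw [he]; exact h2⟩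
  have := Finset.le_sup (f := fun p : ℕ × (Fin d → ℤ) => t p.1 (p.2 +ᵥ x')) h3
  simpa only [he, top] using this

theorem top_congr (t : ℕ → X → ℕ) {k : ℕ} {x x' : X} (h : R.E k x x') :
    R.top t k x = R.top t k x' :=
  le_antisymm (top_le t le_rfl h.symm) (top_le t le_rfl h)

theorem level_lt (t : ℕ → X → ℕ) {k k' : ℕ} {x y : X} (hx : R.inP k x) (hxy : Near d q x y)
    (hk : k < k') : k + R.top t k x < k' + R.top t k' y := by
  have := top_le t hk.le ((hx.E_of_near hxy).symm.mono hk.le)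
  omega

variable [ContinuousConstVAdd (Fin d → ℤ) X]

theorem exists_code : ∃ t : ℕ → X → ℕ, (∀ k n, IsClosed {x | t k x = n}) ∧
    ∀ k x y, t k x = t k y → (R.inP k x ↔ R.inP k y) ∧ R.shape k x = R.shape k y := by
  have h : ∀ k, Dec (fun x => (R.inP k x, R.shape k x)) := by
    intro k
    refine (dec_inP k).pair ?_
    obtain ⟨t, ht, htf⟩ := Dec.finset (box d (R.β k)) (dec_E (R := R) k)
    refine ⟨t, ht, fun x y hxy => ?_⟩
    ext g
    rw [mem_shape, mem_shape]
    by_cases hg : g ∈ box d (R.β k)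
    · rw [htf x y hxy g hg]
    · simp [hg]
  choose t ht htf using h
  refine ⟨t, ht, fun k x y hxy => ?_⟩
  have := htf k x y hxy
  rw [Prod.mk.injEq] at this
  exact ⟨by rw [this.1], this.2⟩

theorem isClosed_layer {t : ℕ → X → ℕ} (ht : ∀ k n, IsClosed {x | t k x = n})
    (htf : ∀ k x y, t k x = t k y → (R.inP k x ↔ R.inP k y) ∧ R.shape k x = R.shape k y)
    (l : ℕ) : IsClosed (R.layer t l) := by
  rw [← closure_subset_iff_isClosed]
  intro x hx
  have hN : ∀ᶠ y in nhds x, ∀ p ∈ (Finset.range (l + 1) ×ˢ box d (R.β l)) ×ˢ Finset.range (l + 1),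
      t p.1.1 (p.1.2 +ᵥ y) = p.2 → t p.1.1 (p.1.2 +ᵥ x) = p.2 := by
    rw [Filter.eventually_all_finset]
    intro p _
    by_cases h : t p.1.1 (p.1.2 +ᵥ x) = p.2
    · exact Filter.Eventually.of_forall fun _ _ => h
    · have h1 : IsOpen {y : X | t p.1.1 (p.1.2 +ᵥ y) = p.2}ᶜ :=
        ((ht p.1.1 p.2).preimage (continuous_const_vadd p.1.2)).isOpen_compl
      filter_upwards [h1.mem_nhds h] with y hy h2 using absurd h2 hy
  obtain ⟨y, hyN, k, hk, hl⟩ := mem_closure_iff_nhds.1 hx _ hN
  have key : ∀ p ∈ Finset.range (k + 1) ×ˢ R.shape k y, t p.1 (p.2 +ᵥ x) = t p.1 (p.2 +ᵥ y) := by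
    intro p hp
    have h1 : t p.1 (p.2 +ᵥ y) ≤ R.top t k y :=
      Finset.le_sup (f := fun p : ℕ × (Fin d → ℤ) => t p.1 (p.2 +ᵥ y)) hp
    rw [Finset.mem_product, Finset.mem_range, mem_shape] at hp
    refine hyN (p, t p.1 (p.2 +ᵥ y)) ?_ rfl
    simp only [Finset.mem_product, Finset.mem_range]
    refine ⟨⟨by have := hp.1; omega, mem_box.2 fun i => (mem_box.1 hp.2.1 i).trans ?_⟩, by omega⟩
    exact_mod_cast R.mono (by omega : k ≤ l)
  have h0 : t k x = t k y := by
    have := key (k, 0) (by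
      rw [Finset.mem_product, Finset.mem_range, mem_shape]
      exact ⟨by simp, mem_box.2 fun i => by simp, fun m _ u _ => by simp⟩)
    simpa using this
  obtain ⟨h1, h2⟩ := htf k x y h0
  refine ⟨k, h1.2 hk, ?_⟩
  rw [← hl, top, top, h2, Finset.sup_congr rfl key]

omit [ContinuousConstVAdd (Fin d → ℤ) X] in
theorem isToast_layer (t : ℕ → X → ℕ) : IsToast (schreier d X) q (R.layer t) := by
  refine ⟨?_, fun l => ⟨R.β l, fun x y hxy => ?_⟩, fun l l' hl => ?_⟩
  · rw [Set.eq_univ_iff_forall]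
    intro x
    obtain ⟨k, hk⟩ := exists_inP (R := R) x
    exact Set.mem_iUnion.2 ⟨_, k, hk, rfl⟩
  · have key : ∀ {x y : R.layer t l}
        (_ : ((powerGraph (schreier d X) q).induce (R.layer t l)).Walk x y) (k : ℕ),
        R.inP k x → k + R.top t k x = l → R.E k x y := by
      intro x y p
      induction p with
      | nil => exact fun k _ _ => E.refl _ _
      | cons h p ih =>
        rename_i u v w
        intro k hk hl
        have h1 : Near d q (u : X) (v : X) := by
          rcases h.2 with h | h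
          · exact near_of_edist_le h
          · exact (near_of_edist_le h).symm
        obtain ⟨k', hk', hl'⟩ := v.2
        have h2 : k = k' := by
          rcases lt_trichotomy k k' with h3 | h3 | h3
          · have := level_lt t hk h1 h3; omega
          · exact h3
          · have := level_lt t hk' h1.symm h3; omega
        subst h2
        exact (hk.E_of_near h1).trans (ih k hk' hl')
    obtain ⟨p⟩ := hxy
    obtain ⟨k, hk, hl⟩ := x.2
    exact edist_le_of_near ((key p k hk hl).1.mono (R.mono (by omega)))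
  · refine le_iInf₂ fun x hx => le_iInf₂ fun y hy => ?_
    obtain ⟨k, hk, hlx⟩ := hx
    obtain ⟨⟨k', hk', hly⟩, hb⟩ := hy
    by_contra hlt
    rw [not_le] at hlt
    obtain ⟨z, hz, hyz⟩ : ∃ z, z ∉ R.layer t l' ∧ Near d 1 y z := by
      by_contra hcon
      push Not at hcon
      have h2 : (2 : ℕ∞) ≤ setDist (schreier d X) {y} (R.layer t l')ᶜ := by
        refine le_iInf₂ fun a ha => le_iInf₂ fun b hb => ?_
        rw [Set.mem_singleton_iff.1 ha]
        by_contra h3
        rw [not_le] at h3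
        exact hcon b hb (near_of_edist_le (Order.le_of_lt_add_one h3))
      exact absurd (h2.trans hb) (by decide)
    obtain ⟨q', hq'⟩ : ∃ q', q = q' + 1 := by
      refine Nat.exists_eq_succ_of_ne_zero ?_
      rintro rfl
      simp at hlt
    have hxy : Near d q' x y := by
      refine near_of_edist_le (Order.le_of_lt_add_one ?_)
      rw [hq'] at hlt
      exact_mod_cast hlt
    have hxy' : Near d q x y := hxy.mono (by omega)
    have hxz : Near d q x z := hxy.trans hyz (by omega)
    rcases lt_trichotomy k k' with h3 | h3 | h3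
    · have hE := (hk.E_of_near hxy').mono h3.le
      refine hz ⟨k', hk.nest h3 (cand_congr _ hE.symm hk'.1) hxz, ?_⟩
      rw [← hly, top_congr t (hE.symm.trans ((hk.E_of_near hxz).mono h3.le))]
    · subst h3
      have := top_congr t (hk.E_of_near hxy')
      omega
    · have := level_lt t hk' hxy'.symm h3
      omega

end Rainbow

theorem exists_closed_toast [ContinuousConstVAdd (Fin d → ℤ) X] [T2Space X]
    [SecondCountableTopology X]
    (hzero : TopologicalSpace.IsTopologicalBasis {U : Set X | IsClopen U})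
    (hfree : ∀ (g : Fin d → ℤ) (x : X), g +ᵥ x = x → g = 0) (q : ℕ) :
    ∃ T : ℕ → Set X, IsToast (schreier d X) q T ∧ ∀ n, IsClosed (T n) := by
  obtain ⟨R⟩ := exists_rainbow (d := d) hzero hfree q
  obtain ⟨t, ht, htf⟩ := Rainbow.exists_code (R := R)
  exact ⟨R.layer t, Rainbow.isToast_layer t, Rainbow.isClosed_layer ht htf⟩

end Pool.Agent.MP_03d3f2_lc
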