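import Pool.Agent.MP_03d3f2_lc.Defs

/-!
The orbit metric of a `ℤ^d`-action, neighbourhoods and clopen marker sets.
-/

namespace Pool.Agent.MP_03d3f2_lc

/-- The finite ball of radius `r` in `ℤ^d`. -/
noncomputable def box (d r : ℕ) : Finset (Fin d → ℤ) := Fintype.piFinset fun _ => Finset.Icc (-(r : ℤ)) r

theorem mem_box {d r : ℕ} {g : Fin d → ℤ} : g ∈ box d r ↔ ∀ i, |g i| ≤ r := by
  simp [box, Fintype.mem_piFinset, abs_le]

variable (d : ℕ) {X : Type} [AddAction (Fin d → ℤ) X]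

/-- `y` is obtained from `x` by a translation of sup norm at most `r`. -/
def Near (r : ℕ) (x y : X) : Prop := ∃ g ∈ box d r, g +ᵥ x = y

variable {d}

theorem Near.refl (r : ℕ) (x : X) : Near d r x x :=
  ⟨0, mem_box.2 fun i => by simp, zero_vadd _ _⟩

theorem Near.symm {r : ℕ} {x y : X} (h : Near d r x y) : Near d r y x := by
  obtain ⟨g, hg, rfl⟩ := h
  refine ⟨-g, mem_box.2 fun i => ?_, neg_vadd_vadd g x⟩
  simpa using mem_box.1 hg i

theorem Near.mono {r s : ℕ} {x y : X} (h : Near d r x y) (hrs : r ≤ s) : Near d s x y := by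
  obtain ⟨g, hg, rfl⟩ := h
  exact ⟨g, mem_box.2 fun i => (mem_box.1 hg i).trans (by exact_mod_cast hrs), rfl⟩

theorem Near.trans {r s t : ℕ} {x y z : X} (h : Near d r x y) (h' : Near d s y z)
    (hrs : r + s ≤ t) : Near d t x z := by
  obtain ⟨g, hg, rfl⟩ := h
  obtain ⟨g', hg', rfl⟩ := h'
  refine Near.mono (r := r + s) ⟨g' + g, mem_box.2 fun i => ?_, add_vadd _ _ _⟩ hrs
  have h1 := mem_box.1 hg i
  have h2 := mem_box.1 hg' i
  have h3 := abs_add_le (g' i) (g i)
  simp only [Pi.add_apply]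
  push_cast
  linarith

theorem Near.vadd {r : ℕ} {x y : X} (h : Near d r x y) (w : Fin d → ℤ) :
    Near d r (w +ᵥ x) (w +ᵥ y) := by
  obtain ⟨g, hg, rfl⟩ := h
  exact ⟨g, hg, by rw [vadd_vadd, vadd_vadd, add_comm]⟩

theorem near_of_walk {x y : X} (p : (schreier d X).Walk x y) : Near d p.length x y := by
  induction p with
  | nil => exact Near.refl _ _
  | cons h p ih =>
    rename_i u v w
    have h1 : ∀ a b : X, (∃ γ : Fin d → ℤ, ‖γ‖ = 1 ∧ b = γ +ᵥ a) → Near d 1 a b := by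
      rintro a b ⟨γ, hγ, rfl⟩
      refine ⟨γ, mem_box.2 fun i => ?_, rfl⟩
      have := norm_le_pi_norm γ i
      rw [hγ, Int.norm_eq_abs] at this
      exact_mod_cast this
    have h2 : Near d 1 u v := by
      rcases h.2 with h | h
      · exact h1 _ _ h
      · exact (h1 _ _ h).symm
    exact h2.trans ih (by simp [add_comm])

theorem near_of_edist_le {r : ℕ} {x y : X} (h : (schreier d X).edist x y ≤ r) : Near d r x y := by
  have hne : (schreier d X).edist x y ≠ ⊤ := ne_top_of_le_ne_top (by simp) h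
  obtain ⟨p, hp⟩ := SimpleGraph.exists_walk_of_edist_ne_top hne
  refine (near_of_walk p).mono ?_
  rw [← hp] at h
  exact_mod_cast h

theorem edist_le_of_near {r : ℕ} : ∀ {x y : X}, Near d r x y → (schreier d X).edist x y ≤ r := by
  induction r with
  | zero =>
    rintro x y ⟨g, hg, rfl⟩
    have : g = 0 := funext fun i => by simpa using mem_box.1 hg i
    simp [this]
  | succ r ih =>
    rintro x y ⟨g, hg, rfl⟩
    let s : Fin d → ℤ := fun i => Int.sign (g i)
    have h1 : Near d r x ((g - s) +ᵥ x) := by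
      refine ⟨g - s, mem_box.2 fun i => ?_, rfl⟩
      have := mem_box.1 hg i
      simp only [Pi.sub_apply, s]
      rw [abs_le] at this ⊢
      push_cast at this
      rcases lt_trichotomy (g i) 0 with h | h | h
      · rw [Int.sign_eq_neg_one_of_neg h]; omega
      · rw [h]; simp
      · rw [Int.sign_eq_one_of_pos h]; omega
    have h2 : (schreier d X).edist ((g - s) +ᵥ x) (g +ᵥ x) ≤ 1 := by
      rw [SimpleGraph.edist_le_one_iff_adj_or_eq]
      by_cases he : (g - s) +ᵥ x = g +ᵥ x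
      · exact Or.inr he
      · left
        refine ⟨he, Or.inl ⟨s, ?_, by rw [vadd_vadd]; simp⟩⟩
        apply le_antisymm
        · refine (pi_norm_le_iff_of_nonneg zero_le_one).2 fun i => ?_
          rw [Int.norm_eq_abs]
          have : |s i| ≤ 1 := by
            simp only [s]
            rcases lt_trichotomy (g i) 0 with h | h | h
            · rw [Int.sign_eq_neg_one_of_neg h]; simp
            · rw [h]; simp
            · rw [Int.sign_eq_one_of_pos h]; simp
          exact_mod_cast this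
        · have hs : s ≠ 0 := by
            intro h0
            apply he
            rw [h0, sub_zero]
          obtain ⟨i, hi⟩ := Function.ne_iff.1 hs
          refine le_trans ?_ (norm_le_pi_norm s i)
          rw [Int.norm_eq_abs]
          have : 1 ≤ |s i| := Int.one_le_abs hi
          exact_mod_cast this
    calc (schreier d X).edist x (g +ᵥ x)
        ≤ (schreier d X).edist x ((g - s) +ᵥ x) + (schreier d X).edist ((g - s) +ᵥ x) (g +ᵥ x) :=
          SimpleGraph.edist_triangle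
      _ ≤ r + 1 := add_le_add (ih h1) h2
      _ = ((r + 1 : ℕ) : ℕ∞) := by push_cast; rfl

variable (d) in
/-- The `r`-neighbourhood of a set in the orbit metric. -/
def nbhd (r : ℕ) (Y : Set X) : Set X := {y | ∃ x ∈ Y, Near d r x y}

theorem subset_nbhd (r : ℕ) (Y : Set X) : Y ⊆ nbhd d r Y := fun y hy => ⟨y, hy, Near.refl _ _⟩

variable [TopologicalSpace X] [ContinuousConstVAdd (Fin d → ℤ) X]

theorem isClopen_vadd_mem {Y : Set X} (hY : IsClopen Y) (g : Fin d → ℤ) :
    IsClopen {x | g +ᵥ x ∈ Y} :=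
  hY.preimage (continuous_const_vadd g)

theorem isClopen_nbhd (r : ℕ) {Y : Set X} (hY : IsClopen Y) : IsClopen (nbhd d r Y) := by
  have : nbhd d r Y = ⋃ g ∈ box d r, {x | g +ᵥ x ∈ Y} := by
    ext y
    simp only [nbhd, Set.mem_ofPred_eq, Set.mem_iUnion, exists_prop]
    constructor
    · rintro ⟨x, hx, h⟩
      obtain ⟨g, hg, rfl⟩ := h.symm
      exact ⟨g, hg, hx⟩
    · rintro ⟨g, hg, hx⟩
      exact ⟨_, hx, Near.symm ⟨g, hg, rfl⟩⟩
  rw [this]
  exact isClopen_biUnion_finset fun g _ => isClopen_vadd_mem hY g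

theorem exists_markers [T2Space X] [SecondCountableTopology X]
    (hzero : TopologicalSpace.IsTopologicalBasis {U : Set X | IsClopen U})
    (hfree : ∀ (g : Fin d → ℤ) (x : X), g +ᵥ x = x → g = 0) (r : ℕ) :
    ∃ C : Set X, IsClopen C ∧ (∀ x ∈ C, ∀ y ∈ C, Near d r x y → x = y) ∧
      ∀ x, x ∈ nbhd d r C := by
  classical
  have hloc : ∀ x : X, ∃ O : Set X, IsClopen O ∧ x ∈ O ∧
      ∀ y ∈ O, ∀ z ∈ O, Near d r y z → y = z := by
    intro x
    have h1 : ∀ g : Fin d → ℤ, ∃ W ∈ nhds x, ∀ y ∈ W, ∀ z ∈ W, g +ᵥ y = z → y = z := by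
      intro g
      by_cases hg : g = 0
      · exact ⟨Set.univ, Filter.univ_mem, fun y _ z _ h => by rw [← h, hg, zero_vadd]⟩
      · have hne : g +ᵥ x ≠ x := fun h => hg (hfree g x h)
        obtain ⟨U, V, hU, hV, hxU, hxV, hUV⟩ := t2_separation hne
        refine ⟨V ∩ {y | g +ᵥ y ∈ U}, Filter.inter_mem (hV.mem_nhds hxV)
          ((hU.preimage (continuous_const_vadd g)).mem_nhds hxU), fun y hy z hz h => ?_⟩
        exact absurd (h ▸ hy.2 : z ∈ U) (fun hzU => Set.disjoint_left.1 hUV hzU hz.1)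
    choose W hW hW' using h1
    have h2 : (⋂ g ∈ box d r, W g) ∈ nhds x := (Filter.biInter_finset_mem _).2 fun g _ => hW g
    obtain ⟨O, hO, hxO, hOW⟩ := hzero.mem_nhds_iff.1 h2
    refine ⟨O, hO, hxO, fun y hy z hz ⟨g, hg, h⟩ => hW' g y ?_ z ?_ h⟩
    · exact Set.mem_iInter₂.1 (hOW hy) g hg
    · exact Set.mem_iInter₂.1 (hOW hz) g hg
  obtain ⟨O, hO, hOd, hOc⟩ : ∃ O : ℕ → Set X, (∀ k, IsClopen (O k)) ∧
      (∀ k, ∀ y ∈ O k, ∀ z ∈ O k, Near d r y z → y = z) ∧ ∀ x, ∃ k, x ∈ O k := by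
    rcases isEmpty_or_nonempty X with hX | hX
    · exact ⟨fun _ => ∅, fun _ => isClopen_empty, fun _ y => hX.elim y, fun x => hX.elim x⟩
    choose O hO hxO hOd using hloc
    obtain ⟨s, hs, hsU⟩ := TopologicalSpace.countable_cover_nhds
      (f := O) (fun x => (hO x).isOpen.mem_nhds (hxO x))
    have hsne : s.Nonempty := by
      obtain ⟨x⟩ := hX
      have : x ∈ ⋃ y ∈ s, O y := hsU ▸ Set.mem_univ x
      obtain ⟨y, hy, -⟩ := Set.mem_iUnion₂.1 this
      exact ⟨y, hy⟩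
    obtain ⟨f, rfl⟩ := hs.exists_eq_range hsne
    refine ⟨fun k => O (f k), fun k => hO _, fun k => hOd _, fun x => ?_⟩
    have : x ∈ ⋃ y ∈ Set.range f, O y := hsU ▸ Set.mem_univ x
    obtain ⟨y, ⟨k, rfl⟩, hy⟩ := Set.mem_iUnion₂.1 this
    exact ⟨k, hy⟩
  let S : ℕ → Set X := fun k => Nat.rec ∅ (fun k Sk => Sk ∪ (O k \ nbhd d r Sk)) k
  have hS0 : S 0 = ∅ := rfl
  have hSs : ∀ k, S (k + 1) = S k ∪ (O k \ nbhd d r (S k)) := fun k => rfl
  have hSc : ∀ k, IsClopen (S k) := by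
    intro k
    induction k with
    | zero => exact isClopen_empty
    | succ k ih => exact ih.union ((hO k).diff (isClopen_nbhd r ih))
  have hSm : Monotone S := monotone_nat_of_le_succ fun k => Set.subset_union_left
  have hSd : ∀ k, ∀ x ∈ S k, ∀ y ∈ S k, Near d r x y → x = y := by
    intro k
    induction k with
    | zero => intro x hx; exact hx.elim
    | succ k ih =>
      rintro x (hx | hx) y (hy | hy) h
      · exact ih x hx y hy h
      · exact absurd ⟨x, hx, h⟩ hy.2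
      · exact absurd ⟨y, hy, h.symm⟩ hx.2
      · exact hOd k x hx.1 y hy.1 h
  have hCd : ∀ x ∈ ⋃ k, S k, ∀ y ∈ ⋃ k, S k, Near d r x y → x = y := by
    intro x hx y hy h
    obtain ⟨j, hj⟩ := Set.mem_iUnion.1 hx
    obtain ⟨k, hk⟩ := Set.mem_iUnion.1 hy
    exact hSd (max j k) x (hSm (le_max_left _ _) hj) y (hSm (le_max_right _ _) hk) h
  have hcov : ∀ x, ∃ k, x ∈ nbhd d r (S k) := by
    intro x
    obtain ⟨k, hk⟩ := hOc x
    by_cases h : x ∈ nbhd d r (S k)
    · exact ⟨k, h⟩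
    · exact ⟨k + 1, subset_nbhd _ _ (Or.inr ⟨hk, h⟩)⟩
  refine ⟨⋃ k, S k, ⟨?_, isOpen_iUnion fun k => (hSc k).isOpen⟩, hCd, fun x => ?_⟩
  · rw [← isOpen_compl_iff, isOpen_iff_forall_mem_open]
    intro x hx
    obtain ⟨k, hk⟩ := hcov x
    refine ⟨nbhd d r (S k) \ S k, ?_, ((isClopen_nbhd r (hSc k)).diff (hSc k)).isOpen,
      hk, fun h => hx (Set.mem_iUnion.2 ⟨k, h⟩)⟩
    rintro y ⟨⟨c, hc, hcy⟩, hy⟩ hyC
    exact hy (hCd c (Set.mem_iUnion.2 ⟨k, hc⟩) y hyC hcy ▸ hc)
  · obtain ⟨k, c, hc, hcx⟩ := hcov x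
    exact ⟨c, Set.mem_iUnion.2 ⟨k, hc⟩, hcx⟩

end Pool.Agent.MP_03d3f2_lc
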