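import Pool.Agent.MP_03d3f2_lc.Rainbow
import Pool.Agent.MP_03d3f2_lc.Dec

/-!
From a rainbow system to a toast whose pieces are decided on a countable closed partition.
-/

namespace Pool.Agent.MP_03d3f2_lc

variable {d : ℕ} {X : Type} [AddAction (Fin d → ℤ) X] [TopologicalSpace X] {q : ℕ}

namespace Rainbow

variable (R : Rainbow d X q)

/-- Two points are close and not separated by any set of level at least `k`. -/
def E (k : ℕ) (x y : X) : Prop :=
  Near d (R.β k) x y ∧ ∀ m, k ≤ m → ∀ u < R.L, (x ∈ R.V m u ↔ y ∈ R.V m u)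

/-- The boundary of level `m > k` and colour `u` passes near the level `k` class of `x`. -/
def alive (m u k : ℕ) (x : X) : Prop :=
  k < m ∧ ∃ y, R.E k x y ∧ Split d (2 * q) (R.V m u) y

/-- Forward looking selection of levels, colour by colour. -/
def cand : ℕ → ℕ → X → Prop
  | 0, _, _ => True
  | u + 1, k, x => cand u k x ∧ ∀ m, R.alive m u k x → ∀ k', k < k' → k' < m → ¬ cand u k' x

/-- `x` lies in a piece of level `k`. -/
def inP (k : ℕ) (x : X) : Prop :=
  R.cand R.L k x ∧ (∀ u < R.L, ¬ Split d q (R.V k u) x) ∧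
    ∀ m, k < m → ∀ u < R.L, ¬ Split d (2 * q) (R.V m u) x

variable {R}

theorem E.refl (k : ℕ) (x : X) : R.E k x x := ⟨Near.refl _ _, fun _ _ _ _ => Iff.rfl⟩

theorem E.symm {k : ℕ} {x y : X} (h : R.E k x y) : R.E k y x :=
  ⟨h.1.symm, fun m hm u hu => (h.2 m hm u hu).symm⟩

theorem E.trans {k : ℕ} {x y z : X} (h : R.E k x y) (h' : R.E k y z) : R.E k x z := by
  refine ⟨?_, fun m hm u hu => (h.2 m hm u hu).trans (h'.2 m hm u hu)⟩
  obtain ⟨u, hu, hx⟩ := R.cover k x
  have hy := (h.2 k le_rfl u hu).1 hx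
  have hz := (h'.2 k le_rfl u hu).1 hy
  exact R.cluster k u x hx y hy z hz h.1 h'.1

theorem E.mono {k k' : ℕ} {x y : X} (h : R.E k x y) (hk : k ≤ k') : R.E k' x y :=
  ⟨h.1.mono (R.mono hk), fun m hm u hu => h.2 m (hk.trans hm) u hu⟩

theorem alive.congr {m u k : ℕ} {x x' : X} (h : R.alive m u k x) (hx : R.E k x x') :
    R.alive m u k x' := by
  obtain ⟨hkm, y, hy, hs⟩ := h
  exact ⟨hkm, y, hx.symm.trans hy, hs⟩

theorem alive.persist {m u k k' : ℕ} {x : X} (h : R.alive m u k x) (hk : k ≤ k') (hm : k' < m) :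
    R.alive m u k' x := by
  obtain ⟨-, y, hy, hs⟩ := h
  exact ⟨hm, y, hy.mono hk, hs⟩

theorem alive.split {m u k : ℕ} {x : X} (h : R.alive m u k x) :
    Split d (R.β k + 2 * q) (R.V m u) x := by
  obtain ⟨-, y, hy, hs⟩ := h
  exact hs.of_near hy.1 le_rfl

theorem split_unique {m m' u k : ℕ} {x : X} (hm : k < m) (hm' : k < m')
    (h : Split d (R.β k + 2 * q) (R.V m u) x) (h' : Split d (R.β k + 2 * q) (R.V m' u) x) :
    m = m' := by
  rcases lt_trichotomy m m' with hlt | heq | hgt
  · exact absurd h' (R.far u k m m' x hm hlt h)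
  · exact heq
  · exact absurd h (R.far u k m' m x hm' hgt h')

theorem cand_congr (u : ℕ) : ∀ {k : ℕ} {x x' : X}, R.E k x x' → R.cand u k x → R.cand u k x' := by
  induction u with
  | zero => exact fun _ _ => trivial
  | succ u ih =>
    intro k x x' hx h
    exact ⟨ih hx h.1, fun m hm k' hk hk' hc =>
      h.2 m (hm.congr hx.symm) k' hk hk' (ih (hx.symm.mono hk.le) hc)⟩

theorem cand_anti {u u' k : ℕ} {x : X} (hu : u ≤ u') (h : R.cand u' k x) : R.cand u k x := by
  induction u', hu using Nat.le_induction with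
  | base => exact h
  | succ u' _ ih => exact ih h.1

theorem cand_infinite (u : ℕ) (x : X) : ∀ n, ∃ k, n ≤ k ∧ R.cand u k x := by
  classical
  induction u with
  | zero => exact fun n => ⟨n, le_rfl, trivial⟩
  | succ u ih =>
    intro n
    obtain ⟨k, hnk, hk⟩ := ih n
    by_cases hal : ∃ m, R.alive m u k x
    · obtain ⟨m, hm⟩ := hal
      have hkm : k ≤ m - 1 := by have := hm.1; omega
      have h1 : R.cand u (Nat.findGreatest (fun j => R.cand u j x) (m - 1)) x :=
        Nat.findGreatest_spec (P := fun j => R.cand u j x) hkm hk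
      have h2 : k ≤ Nat.findGreatest (fun j => R.cand u j x) (m - 1) :=
        Nat.le_findGreatest hkm hk
      have h3 : Nat.findGreatest (fun j => R.cand u j x) (m - 1) ≤ m - 1 := Nat.findGreatest_le _
      have h4 := hm.1
      refine ⟨_, hnk.trans h2, h1, fun m' hm' k' hk' hk'm hc => ?_⟩
      have h5 := hm.persist h2 (by omega)
      have h6 : m' = m := split_unique hm'.1 h5.1 hm'.split h5.split
      have h7 : k' ≤ Nat.findGreatest (fun j => R.cand u j x) (m - 1) :=
        Nat.le_findGreatest (by omega) hc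
      omega
    · exact ⟨k, hnk, hk, fun m hm => absurd ⟨m, hm⟩ hal⟩

theorem inP.E_of_near {k : ℕ} {x y : X} (h : R.inP k x) (hy : Near d q x y) : R.E k x y := by
  refine ⟨hy.mono (R.q_le k), fun m hm u hu => ?_⟩
  rcases hm.eq_or_lt with rfl | hm
  · exact iff_of_not_split (h.2.1 u hu) hy
  · exact iff_of_not_split (h.2.2 m hm u hu) (hy.mono (by omega))

theorem inP.nest {k k' : ℕ} {x z : X} (h : R.inP k x) (hk : k < k') (hc : R.cand R.L k' x)
    (hz : Near d q x z) : R.inP k' z := by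
  have hE := h.E_of_near hz
  refine ⟨cand_congr _ (hE.mono hk.le) hc, fun u hu hs => ?_, fun m hm u hu hs => ?_⟩
  · exact h.2.2 k' hk u hu (hs.of_near hz (by omega))
  · have h1 : R.alive m u k x := ⟨hk.trans hm, z, hE, hs⟩
    have h2 : R.cand (u + 1) k x := cand_anti hu h.1
    exact h2.2 m h1 k' hk hm (cand_anti hu.le hc)

theorem exists_inP (x : X) : ∃ k, R.inP k x := by
  have h1 : ∀ u, ∃ n, ∀ m, n ≤ m → ¬ Split d (2 * q) (R.V m u) x := by
    intro u
    by_cases h : ∃ m, 0 < m ∧ Split d (2 * q) (R.V m u) x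
    · obtain ⟨m, hm, hs⟩ := h
      refine ⟨m + 1, fun m' hm' hs' => ?_⟩
      have := split_unique (R := R) (k := 0) hm (by omega : 0 < m') (hs.mono (by omega))
        (hs'.mono (by omega))
      omega
    · exact ⟨1, fun m hm hs => h ⟨m, hm, hs⟩⟩
  choose n hn using h1
  obtain ⟨k, hk, hc⟩ := cand_infinite (R := R) R.L x ((Finset.range R.L).sup n)
  have h2 : ∀ u < R.L, n u ≤ k := fun u hu =>
    (Finset.le_sup (f := n) (Finset.mem_range.2 hu)).trans hk
  exact ⟨k, hc, fun u hu hs => hn u k (h2 u hu) (hs.mono (by omega)),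
    fun m hm u hu => hn u m ((h2 u hu).trans hm.le)⟩

variable [ContinuousConstVAdd (Fin d → ℤ) X]

theorem isClopen_forall_lt (L : ℕ) {p : ℕ → X → Prop} (hp : ∀ u, IsClopen {x | p u x}) :
    IsClopen {x | ∀ u < L, p u x} := by
  have : {x | ∀ u < L, p u x} = ⋂ u ∈ Finset.range L, {x | p u x} := by
    ext x; simp
  rw [this]
  exact isClopen_biInter_finset fun u _ => hp u

theorem isClopen_imp_const (c : Prop) {p : X → Prop} (hp : IsClopen {x | p x}) :
    IsClopen {x | c → p x} := by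
  by_cases hc : c
  · simpa [hc] using hp
  · simp [hc, isClopen_univ]

theorem dec_E (k : ℕ) (g : Fin d → ℤ) : Dec (fun x => g ∈ box d (R.β k) ∧
    ∀ m, k ≤ m → ∀ u < R.L, (x ∈ R.V m u ↔ g +ᵥ x ∈ R.V m u)) := by
  refine (Dec.const _).and (Dec.forall_clopen _ fun m => isClopen_imp_const _
    (isClopen_forall_lt _ fun u => ?_))
  have : {x | x ∈ R.V m u ↔ g +ᵥ x ∈ R.V m u} =
      (R.V m u ∩ {x | g +ᵥ x ∈ R.V m u}) ∪ ((R.V m u)ᶜ ∩ {x | g +ᵥ x ∈ R.V m u}ᶜ) := by
    ext x
    simp only [Set.mem_ofPred_eq, Set.mem_union, Set.mem_inter_iff, Set.mem_compl_iff]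
    tauto
  rw [this]
  exact ((R.clopen m u).inter (isClopen_vadd_mem (R.clopen m u) g)).union
    ((R.clopen m u).compl.inter (isClopen_vadd_mem (R.clopen m u) g).compl)

theorem dec_alive (m u k : ℕ) : Dec (R.alive m u k) := by
  have h := (Dec.const (X := X) (k < m)).and (Dec.exists_finset (box d (R.β k))
    (p := fun g x => (g ∈ box d (R.β k) ∧
      ∀ m, k ≤ m → ∀ u < R.L, (x ∈ R.V m u ↔ g +ᵥ x ∈ R.V m u)) ∧
      Split d (2 * q) (R.V m u) (g +ᵥ x)) fun g => (dec_E k g).and
        ((Dec.clopen (isClopen_split (2 * q) (R.clopen m u))).comp (continuous_const_vadd g)))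
  convert h using 2 with x
  refine and_congr_right fun _ => ⟨?_, ?_⟩
  · rintro ⟨y, ⟨⟨g, hg, rfl⟩, hE⟩, hs⟩
    exact ⟨g, hg, ⟨hg, hE⟩, hs⟩
  · rintro ⟨g, hg, ⟨-, hE⟩, hs⟩
    exact ⟨_, ⟨⟨g, hg, rfl⟩, hE⟩, hs⟩

theorem dec_cand (u : ℕ) : ∀ k, Dec (R.cand u k) := by
  classical
  induction u with
  | zero => exact fun k => Dec.const True
  | succ u ih =>
    intro k
    refine (ih k).and ?_
    have hO : ∀ m, IsClopen {x | k < m ∧ Split d (R.β k + 2 * q) (R.V m u) x} := by
      intro m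
      by_cases hm : k < m
      · simpa [hm] using isClopen_split (R.β k + 2 * q) (R.clopen m u)
      · simp [hm, isClopen_empty]
    refine Dec.forall_of_bound (Dec.first _ hO) (fun m => (dec_alive m u k).imp ?_) ?_
    · refine (Dec.forall_finset (Finset.Ioo k m) (p := fun k' x => ¬ R.cand u k' x)
        fun k' => (ih k').not).of_determined fun x y h => ?_
      simpa only [Finset.mem_Ioo, and_imp] using h
    · intro x m hm hal
      exfalso
      have hex : ∃ m, x ∈ {x | k < m ∧ Split d (R.β k + 2 * q) (R.V m u) x} :=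
        ⟨m, hal.1, hal.split⟩
      rw [dif_pos hex] at hm
      have h1 := @Nat.find_spec _ (fun _ => Classical.propDecidable _) hex
      have := split_unique h1.1 hal.1 h1.2 hal.split
      omega

theorem dec_inP (k : ℕ) : Dec (R.inP k) :=
  (dec_cand _ k).and ((Dec.clopen (isClopen_forall_lt _ fun u =>
    (isClopen_split q (R.clopen k u)).compl)).and (Dec.forall_clopen _ fun m =>
      isClopen_imp_const _ (isClopen_forall_lt _ fun u =>
        (isClopen_split (2 * q) (R.clopen m u)).compl)))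

end Rainbow

end Pool.Agent.MP_03d3f2_lc
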