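import Pool.Agent.MP_03d3f2_lc.Near

/-!
A rainbow system of clopen sets: finitely many colours, each level covers the space by bounded
clusters, and boundaries of one colour at different levels are far apart.
-/

namespace Pool.Agent.MP_03d3f2_lc

variable (d : ℕ) {X : Type} [AddAction (Fin d → ℤ) X]

/-- The ball of radius `r` around `x` meets both `V` and its complement. -/
def Split (r : ℕ) (V : Set X) (x : X) : Prop :=
  ∃ y z, Near d r x y ∧ Near d r x z ∧ y ∈ V ∧ z ∉ V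

variable {d}

theorem Split.of_near {r s t : ℕ} {V : Set X} {x w : X} (h : Split d r V x) (hw : Near d s w x)
    (hst : s + r ≤ t) : Split d t V w := by
  obtain ⟨y, z, hy, hz, hyV, hzV⟩ := h
  exact ⟨y, z, hw.trans hy hst, hw.trans hz hst, hyV, hzV⟩

theorem Split.mono {r t : ℕ} {V : Set X} {x : X} (h : Split d r V x) (hrt : r ≤ t) :
    Split d t V x :=
  h.of_near (Near.refl 0 x) (by omega)

theorem iff_of_not_split {r : ℕ} {V : Set X} {x y : X} (h : ¬ Split d r V x) (hy : Near d r x y) :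
    x ∈ V ↔ y ∈ V := by
  constructor
  · intro hx
    by_contra hyV
    exact h ⟨x, y, Near.refl _ _, hy, hx, hyV⟩
  · intro hyV
    by_contra hx
    exact h ⟨y, x, hy, Near.refl _ _, hyV, hx⟩

variable (d) in
/-- One absorption step. -/
def absorb (C : Set X) (a : ℕ) (Y : Set X) : Set X :=
  Y ∪ nbhd d (4 * a) (C ∩ nbhd d (5 * a) Y)

variable (d) in
/-- Absorption through all levels below `k`. -/
def absorbDown (C : ℕ → Set X) (a : ℕ → ℕ) : ℕ → Set X → Set X
  | 0, Y => Y
  | k + 1, Y => absorbDown C a k (absorb d (C k) (a k) Y)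

theorem absorb_subset (C : Set X) (a : ℕ) (Y : Set X) :
    absorb d C a Y ⊆ nbhd d (9 * a) Y := by
  rintro y (hy | ⟨c, ⟨-, x, hx, hxc⟩, hcy⟩)
  · exact subset_nbhd _ _ hy
  · exact ⟨x, hx, hxc.trans hcy (by omega)⟩

theorem subset_absorbDown (C : ℕ → Set X) (a : ℕ → ℕ) (k : ℕ) :
    ∀ Y : Set X, Y ⊆ absorbDown d C a k Y := by
  induction k with
  | zero => exact fun Y => subset_rfl
  | succ k ih => exact fun Y => Set.subset_union_left.trans (ih _)

theorem absorbDown_subset (C : ℕ → Set X) (a : ℕ → ℕ) (ha : ∀ k, 10 * a k ≤ a (k + 1)) (k : ℕ) :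
    ∀ Y : Set X, absorbDown d C a k Y ⊆ nbhd d (a k) Y := by
  induction k with
  | zero => exact fun Y => subset_nbhd _ _
  | succ k ih =>
    intro Y y hy
    obtain ⟨z, hz, hzy⟩ := ih _ hy
    obtain ⟨x, hx, hxz⟩ := absorb_subset _ _ _ hz
    have := ha k
    exact ⟨x, hx, hxz.trans hzy (by omega)⟩

theorem not_split_absorbDown (C : ℕ → Set X) (a : ℕ → ℕ) (ha : ∀ k, 10 * a k ≤ a (k + 1))
    (k : ℕ) (hC : ∀ x ∈ C k, ∀ y ∈ C k, Near d (9 * a k) x y → x = y) (c : X) (hc : c ∈ C k)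
    (m : ℕ) (hkm : k < m) : ∀ Y : Set X, ¬ Split d (4 * a k) (absorbDown d C a m Y) c := by
  induction m, hkm using Nat.le_induction with
  | base =>
    rintro Y ⟨y, z, hy, hz, hyV, hzV⟩
    by_cases h : c ∈ nbhd d (5 * a k) Y
    · exact hzV (subset_absorbDown C a k _ (Or.inr ⟨c, ⟨hc, h⟩, hz⟩))
    · obtain ⟨w, hw, hwy⟩ := absorbDown_subset C a ha k _ hyV
      rcases hw with hw | ⟨c', ⟨hc', hc'Y⟩, hc'w⟩
      · exact h ⟨w, hw, hwy.trans hy.symm (by omega)⟩
      · have h1 : Near d (9 * a k) c' c :=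
          (hc'w.trans hwy (le_refl _)).trans hy.symm (by omega)
        exact h (hC c' hc' c hc h1 ▸ hc'Y)
  | succ m hm ih => exact fun Y => ih _

variable [TopologicalSpace X] [ContinuousConstVAdd (Fin d → ℤ) X]

theorem isClopen_split (r : ℕ) {V : Set X} (hV : IsClopen V) : IsClopen {x | Split d r V x} := by
  have : {x | Split d r V x} = nbhd d r V ∩ nbhd d r Vᶜ := by
    ext x
    constructor
    · rintro ⟨y, z, hy, hz, hyV, hzV⟩
      exact ⟨⟨y, hyV, hy.symm⟩, ⟨z, hzV, hz.symm⟩⟩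
    · rintro ⟨⟨y, hyV, hy⟩, ⟨z, hzV, hz⟩⟩
      exact ⟨y, z, hy.symm, hz.symm, hyV, hzV⟩
  rw [this]
  exact (isClopen_nbhd r hV).inter (isClopen_nbhd r hV.compl)

theorem isClopen_absorbDown (C : ℕ → Set X) (hC : ∀ k, IsClopen (C k)) (a : ℕ → ℕ) (k : ℕ) :
    ∀ Y : Set X, IsClopen Y → IsClopen (absorbDown d C a k Y) := by
  induction k with
  | zero => exact fun Y hY => hY
  | succ k ih =>
    exact fun Y hY => ih _ (hY.union (isClopen_nbhd _ ((hC k).inter (isClopen_nbhd _ hY))))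

variable (d X) in
/-- A rainbow system. -/
structure Rainbow (q : ℕ) where
  /-- number of colours -/
  L : ℕ
  /-- cluster sizes -/
  β : ℕ → ℕ
  /-- the sets, by level and colour -/
  V : ℕ → ℕ → Set X
  clopen : ∀ m u, IsClopen (V m u)
  mono : Monotone β
  q_le : ∀ m, q ≤ β m
  cover : ∀ m x, ∃ u < L, x ∈ V m u
  cluster : ∀ m u, ∀ x ∈ V m u, ∀ y ∈ V m u, ∀ z ∈ V m u,
    Near d (β m) x y → Near d (β m) y z → Near d (β m) x z
  far : ∀ u n k m x, n < k → k < m → Split d (β n + 2 * q) (V k u) x →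
    ¬ Split d (β n + 2 * q) (V m u) x

theorem exists_rainbow [T2Space X] [SecondCountableTopology X]
    (hzero : TopologicalSpace.IsTopologicalBasis {U : Set X | IsClopen U})
    (hfree : ∀ (g : Fin d → ℤ) (x : X), g +ᵥ x = x → g = 0) (q : ℕ) :
    Nonempty (Rainbow d X q) := by
  classical
  let a : ℕ → ℕ := fun m => (2 * q + 1) * 10 ^ m
  have ha : ∀ k, 10 * a k ≤ a (k + 1) := fun k => by simp only [a, pow_succ]; nlinarith
  have hapos : ∀ k, 2 * q + 1 ≤ a k := fun k =>
    Nat.le_mul_of_pos_right _ (by positivity)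
  have hamono : Monotone a := monotone_nat_of_le_succ fun k => by have := ha k; omega
  choose C0 hC0 hC0d hC0m using fun m => exists_markers (d := d) hzero hfree (9 * a m)
  obtain ⟨L, col, hcol⟩ : ∃ (L : ℕ) (col : ℕ → Fin d → ℤ), ∀ g ∈ box d 9, ∃ u < L, col u = g := by
    refine ⟨(box d 9).toList.length, fun u => (box d 9).toList.getD u 0, fun g hg => ?_⟩
    obtain ⟨i, hi, h⟩ := List.getElem_of_mem (Finset.mem_toList.2 hg)
    exact ⟨i, hi, (List.getD_eq_getElem _ _ hi).trans h⟩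
  let C : ℕ → ℕ → Set X := fun u m => {x | (-((a m : ℤ) • col u)) +ᵥ x ∈ C0 m}
  have hC : ∀ u m, IsClopen (C u m) := fun u m => isClopen_vadd_mem (hC0 m) _
  have hCd : ∀ u m, ∀ x ∈ C u m, ∀ y ∈ C u m, Near d (9 * a m) x y → x = y := by
    intro u m x hx y hy h
    exact AddAction.injective _ (hC0d m _ hx _ hy (h.vadd _))
  let V : ℕ → ℕ → Set X := fun m u => absorbDown d (C u) a m (nbhd d (a m) (C u m))
  have hVc : ∀ m u, ∀ x ∈ V m u, ∃ c ∈ C u m, Near d (2 * a m) c x := by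
    intro m u x hx
    obtain ⟨y, ⟨c, hc, hcy⟩, hyx⟩ := absorbDown_subset (C u) a ha m _ hx
    exact ⟨c, hc, hcy.trans hyx (by omega)⟩
  refine ⟨⟨L, fun m => 4 * a m, V, ?_, ?_, ?_, ?_, ?_, ?_⟩⟩
  · exact fun m u => isClopen_absorbDown _ (hC u) _ _ _ (isClopen_nbhd _ (hC u m))
  · exact fun m n h => Nat.mul_le_mul_left _ (hamono h)
  · intro m; have := hapos m; omega
  · intro m x
    obtain ⟨c, hc, g, hg, rfl⟩ := hC0m m x
    have hA : (0 : ℤ) < a m := by have := hapos m; omega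
    obtain ⟨u, hu, hcu⟩ := hcol (fun i => g i / a m) (mem_box.2 fun i => by
      have h1 := abs_le.1 (mem_box.1 hg i)
      push_cast at h1 ⊢
      rw [abs_le]
      constructor
      · rw [Int.le_ediv_iff_mul_le hA]; linarith [h1.1]
      · exact Int.ediv_le_of_le_mul hA (by linarith [h1.2]))
    refine ⟨u, hu, subset_absorbDown _ _ _ _ ⟨((a m : ℤ) • col u) +ᵥ c, ?_, ?_⟩⟩
    · show (-((a m : ℤ) • col u)) +ᵥ (((a m : ℤ) • col u) +ᵥ c) ∈ C0 m
      rw [neg_vadd_vadd]; exact hc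
    · refine ⟨fun i => g i % a m, mem_box.2 fun i => ?_, ?_⟩
      · rw [abs_of_nonneg (Int.emod_nonneg _ hA.ne')]
        exact (Int.emod_lt_of_pos _ hA).le
      · rw [vadd_vadd]
        congr 1
        funext i
        simp only [hcu, Pi.add_apply, Pi.smul_apply, smul_eq_mul]
        exact Int.emod_add_mul_ediv _ _
  · intro m u x hx y hy z hz hxy hyz
    obtain ⟨cx, hcx, h1⟩ := hVc m u x hx
    obtain ⟨cy, hcy, h2⟩ := hVc m u y hy
    obtain ⟨cz, hcz, h3⟩ := hVc m u z hz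
    have e1 : cx = cy := hCd u m _ hcx _ hcy
      ((h1.trans hxy (le_refl _)).trans h2.symm (by omega))
    have e2 : cy = cz := hCd u m _ hcy _ hcz
      ((h2.trans hyz (le_refl _)).trans h3.symm (by omega))
    subst e1 e2
    exact h1.symm.trans h3 (by omega)
  · intro u n k m x hnk hkm hs hs'
    have h1 : 4 * a n + 2 * q ≤ a k := by
      have := hamono (Nat.succ_le_of_lt hnk)
      have := ha n
      have := hapos n
      simp only [Nat.succ_eq_add_one] at *
      omega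
    obtain ⟨y, z, hy, -, hyV, -⟩ := hs
    obtain ⟨c, hc, hcy⟩ := hVc k u y hyV
    refine not_split_absorbDown (C u) a ha k (hCd u k) c hc m hkm _ (hs'.of_near
      (hcy.trans hy.symm (le_refl _)) ?_)
    omega

end Pool.Agent.MP_03d3f2_lc
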